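import Pool.Agent.helper80.EN.Spec

/-!
# Row JSN: join of a subnormal subgroup with a subnormal subgroup that normalises it
-/

set_option autoImplicit false

namespace Pool.Agent.helper80.EN

open Subgroup

universe u

section JSNaux

variable {G : Type u} [Group G]

/-- Successive normal closures of `S`. -/
def jsnC (S : Subgroup G) : ℕ → Subgroup G
  | 0 => ⊤
  | i + 1 => closure {x | ∃ g ∈ jsnC S i, ∃ s ∈ S, x = g * s * g⁻¹}

theorem jsnC_le (S : Subgroup G) (i : ℕ) : S ≤ jsnC S i := by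
  cases i with
  | zero => exact le_top
  | succ i =>
    intro s hs
    exact subset_closure ⟨1, one_mem _, s, hs, by simp⟩

theorem jsnC_anti (S : Subgroup G) (i : ℕ) : jsnC S (i + 1) ≤ jsnC S i := by
  refine (closure_le _).2 ?_
  rintro x ⟨g, hg, s, hs, rfl⟩
  exact mul_mem (mul_mem hg (jsnC_le S i hs)) (inv_mem hg)

theorem jsnC_conj (S : Subgroup G) (i : ℕ) (g : G) (hg : g ∈ jsnC S i) (x : G)
    (hx : x ∈ jsnC S (i + 1)) : g * x * g⁻¹ ∈ jsnC S (i + 1) := by
  have h : jsnC S (i + 1) ≤ (jsnC S (i + 1)).comap (MulAut.conj g).toMonoidHom := by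
    refine (closure_le _).2 ?_
    rintro y ⟨k, hk, s, hs, rfl⟩
    refine subset_closure ⟨g * k, mul_mem hg hk, s, hs, ?_⟩
    simp [mul_assoc]
  have h2 := h hx
  simpa using h2

theorem jsnC_norm (S U : Subgroup G) (hU : ∀ x ∈ U, ∀ s ∈ S, x * s * x⁻¹ ∈ S) (i : ℕ) :
    ∀ u ∈ U, ∀ x ∈ jsnC S i, u * x * u⁻¹ ∈ jsnC S i := by
  induction i with
  | zero => intro u _ x _; exact mem_top _
  | succ i ih =>
    intro u hu x hx
    have h : jsnC S (i + 1) ≤ (jsnC S (i + 1)).comap (MulAut.conj u).toMonoidHom := by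
      refine (closure_le _).2 ?_
      rintro y ⟨k, hk, s, hs, rfl⟩
      refine subset_closure ⟨u * k * u⁻¹, ih u hu k hk, u * s * u⁻¹, hU u hu s hs, ?_⟩
      simp [mul_assoc]
    have h2 := h hx
    simpa using h2

theorem jsnC_chain (S : Subgroup G) (n : ℕ) (f : ℕ → Subgroup G) (hf : Monotone f)
    (hN : ∀ i, ((f i).subgroupOf (f (i + 1))).Normal) (h0 : f 0 = S) (hn : f n = ⊤) :
    ∀ i, i ≤ n → jsnC S i ≤ f (n - i) := by
  intro i
  induction i with
  | zero => intro _; rw [Nat.sub_zero, hn]; exact le_top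
  | succ i ih =>
    intro hi
    have ih' := ih (by omega)
    refine (closure_le _).2 ?_
    rintro x ⟨g, hg, s, hs, rfl⟩
    have e : n - i = n - (i + 1) + 1 := by omega
    have hg' : g ∈ f (n - (i + 1) + 1) := by rw [← e]; exact ih' hg
    have hs' : s ∈ f (n - (i + 1)) := hf (Nat.zero_le _) (by rw [h0]; exact hs)
    have hs'' : s ∈ f (n - (i + 1) + 1) := hf (Nat.le_succ _) hs'
    have := (hN (n - (i + 1))).conj_mem ⟨s, hs''⟩ (mem_subgroupOf.2 hs') ⟨g, hg'⟩
    exact mem_subgroupOf.1 this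

theorem jsn_sup {T : Type u} [Group T] (N H : Subgroup T) [N.Normal] (hH : H.IsSubnormal) :
    (N ⊔ H).IsSubnormal := by
  have h := (hH.quotient (K := N)).comap (QuotientGroup.mk' N)
  rwa [QuotientGroup.comap_map_mk'] at h

theorem jsn_step (C N U : Subgroup G) (hCU : (C ⊔ U).IsSubnormal) (hU : U.IsSubnormal)
    (hNC : N ≤ C) (h1 : ∀ g ∈ C, ∀ x ∈ N, g * x * g⁻¹ ∈ N)
    (h2 : ∀ g ∈ U, ∀ x ∈ N, g * x * g⁻¹ ∈ N) : (N ⊔ U).IsSubnormal := by
  have key : ∀ K : Subgroup G, (∀ g ∈ K, ∀ x ∈ N, g * x * g⁻¹ ∈ N) →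
      K ≤ normalizer (N : Set G) := by
    intro K hK g hg
    rw [mem_normalizer_iff]
    intro x
    refine ⟨fun hx => hK g hg x hx, fun hx => ?_⟩
    have := hK g⁻¹ (inv_mem hg) _ hx
    simpa [mul_assoc] using this
  have hle : C ⊔ U ≤ normalizer (N : Set G) := sup_le (key C h1) (key U h2)
  have hNT : N ≤ C ⊔ U := hNC.trans le_sup_left
  have hn : (N.subgroupOf (C ⊔ U)).Normal := (normal_subgroupOf_iff_le_normalizer hNT).2 hle
  have h3 : (N.subgroupOf (C ⊔ U) ⊔ U.subgroupOf (C ⊔ U)).IsSubnormal :=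
    jsn_sup _ _ hU.subgroupOf
  have h4 := h3.trans' hCU
  rw [Subgroup.map_sup, map_subgroupOf_eq_of_le hNT, map_subgroupOf_eq_of_le le_sup_right] at h4
  exact h4

end JSNaux

theorem JSN : JSN_stmt.{u} := by
  intro G _ S U hS hU hSU
  obtain ⟨n, f, hf, hN, h0, hn⟩ := IsSubnormal.isSubnormal_iff.1 hS
  have hC : jsnC S n = S := by
    refine le_antisymm ?_ (jsnC_le S n)
    have h := jsnC_chain S n f hf hN h0 hn n le_rfl
    rwa [Nat.sub_self, h0] at h
  have hall : ∀ i, (jsnC S i ⊔ U).IsSubnormal := by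
    intro i
    induction i with
    | zero =>
      have : jsnC S 0 ⊔ U = ⊤ := top_sup_eq U
      rw [this]
      exact IsSubnormal.top
    | succ i ih =>
      exact jsn_step (jsnC S i) (jsnC S (i + 1)) U ih hU (jsnC_anti S i)
        (fun g hg x hx => jsnC_conj S i g hg x hx) (jsnC_norm S U hSU (i + 1))
  have h := hall n
  rwa [hC] at h

end Pool.Agent.helper80.EN
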