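import Pool.Agent.helper25.EN.Spec

/-!
# Project EN, row KLQ (helper51): the entropy of the law is the sum over the coins
-/

set_option autoImplicit false

namespace EN

open Finset Real

theorem KLQ (acp : ACP_stmt) (tls : TLS_stmt) (lg : LOG_stmt) : KLQ_stmt := by
  intro m Q hQ L hL
  rcases Nat.eq_zero_or_pos m with hm | hm
  · subst hm
    rw [univ_eq_empty, sum_empty]
    have h1 : Q (fun i => Fin.elim0 i) = 1 := by
      rw [← hQ.2]
      symm
      refine sum_eq_single _ (fun b _ hb => ?_) (fun hb => absurd (mem_univ _) hb)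
      exact absurd (funext fun i => Fin.elim0 i) hb
    have h2 := hL (fun i => Fin.elim0 i)
    rw [h1, pow_zero, div_one] at h2
    by_contra hc
    push Not at hc
    have h3 : exp L < exp 0 := Real.exp_lt_exp.2 hc
    rw [Real.exp_zero] at h3
    linarith
  have hv : ∀ v : Fin m, v ∉ pa v := by
    intro v h
    unfold pa at h
    rw [mem_filter] at h
    exact lt_irrefl _ h.2
  have h1 : ∀ v : Fin m, ∑ x, Q x * phi (a Q (pa v) v x) = ∑ x, Q x * log (2 * a Q (pa v) v x) := by
    intro v
    exact ((lg m Q hQ v (fun _ => pa v) (fun _ => pa v) univ (fun x _ => ⟨hv v, Subset.refl _, fun _ _ => rfl,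
      fun _ _ => ⟨rfl, mem_univ _⟩⟩)).1).symm
  rw [sum_congr rfl fun v _ => h1 v, sum_comm]
  have h2 : ∀ x, ∑ v : Fin m, Q x * log (2 * a Q (pa v) v x) ≤ Q x * L := by
    intro x
    rcases (hQ.1 x).eq_or_lt with h0 | h0
    · rw [← h0]
      simp
    · rw [← mul_sum]
      refine mul_le_mul_of_nonneg_left ?_ h0.le
      have h3 := tls m Q hQ x h0 ∅ univ (empty_subset _)
      rw [sdiff_empty] at h3
      have h4 : ∀ v ∈ (univ : Finset (Fin m)), log (2 * a Q (pa v) v x) = log 2 + log (a Q (∅ ∪ (univ ∩ pa v)) v x) := by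
        intro v _
        rw [empty_union, univ_inter]
        exact log_mul (by norm_num) (((acp m Q hQ (pa v) v x).2.2.2.2.2.2 (hv v)).2.2.2 h0).1.ne'
      have h5 := acp m Q hQ ∅ (⟨0, hm⟩ : Fin m) x
      have h6 : w Q ∅ x = 1 := h5.2.2.2.1
      have h7 : w Q univ x = Q x := h5.2.2.2.2.1
      rw [h6, h7, log_one, zero_add] at h3
      rw [sum_congr rfl h4, sum_add_distrib, ← h3, sum_const, card_univ, Fintype.card_fin, nsmul_eq_mul]
      have h8 : (2 : ℝ) ^ m * Q x ≤ exp L := by
        have h9 := hL x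
        rw [le_div_iff₀ (by positivity)] at h9
        linarith
      have h10 : log ((2 : ℝ) ^ m * Q x) ≤ L := by
        rw [← Real.log_exp L]
        exact Real.log_le_log (by positivity) h8
      rw [log_mul (by positivity) h0.ne', log_pow] at h10
      exact h10
  refine (sum_le_sum fun x _ => h2 x).trans ?_
  rw [← sum_mul, hQ.2, one_mul]

end EN
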